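import Pool.Agent.H92.EQ.TP

/-!
# Board eqd_modules, row PCH: the characteristic polynomial
-/

set_option autoImplicit false

namespace Pool.Agent.H86.EQP.PCH

open MvPolynomial
open Pool.Agent.H92.EQ

variable {N : ℕ}

theorem homComp_mul (c φ : MvPolynomial (Fin N) ℂ) {D : ℕ} (hφ : φ.IsHomogeneous D) (n : ℕ) :
    homogeneousComponent (n + D) (c * φ) = homogeneousComponent n c * φ := by
  classical
  conv_lhs => rw [← sum_homogeneousComponent c]
  rw [Finset.sum_mul, map_sum]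
  have h1 : ∀ i ∈ Finset.range (c.totalDegree + 1),
      homogeneousComponent (n + D) (homogeneousComponent i c * φ) =
        if n = i then homogeneousComponent i c * φ else 0 := by
    intro i _
    rw [homogeneousComponent_of_mem ((homogeneousComponent_isHomogeneous i c).mul hφ)]
    by_cases h : n = i
    · rw [if_pos h, if_pos (by rw [h])]
    · rw [if_neg h, if_neg (fun h' => h (by omega))]
  rw [Finset.sum_congr rfl h1, Finset.sum_ite_eq]
  split_ifs with h
  · rfl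
  · rw [Finset.mem_range, not_lt] at h
    rw [homogeneousComponent_eq_zero _ _ (by omega), zero_mul]

theorem exists_pow {D : ℕ} {Φ : Fin N → MvPolynomial (Fin N) ℂ} (hΦ : IsH D Φ) :
    ∃ e : ℕ, D ≤ e ∧ 1 ≤ e ∧ ∃ c : Fin N → Fin N → MvPolynomial (Fin N) ℂ,
      (∀ i j, (c i j).IsHomogeneous (e - D)) ∧
      ∀ i, (X i : MvPolynomial (Fin N) ℂ) ^ e = ∑ j, c i j * Φ j := by
  classical
  obtain ⟨J, hJ⟩ : ∃ J : Ideal (MvPolynomial (Fin N) ℂ), J = Ideal.span (Set.range Φ) := ⟨_, rfl⟩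
  have h1 : ∀ i, ∃ k : ℕ, (X i : MvPolynomial (Fin N) ℂ) ^ k ∈ J := by
    intro i
    have h2 : (X i : MvPolynomial (Fin N) ℂ) ∈ vanishingIdeal ℂ (zeroLocus ℂ J) := by
      rw [mem_vanishingIdeal_iff]
      intro x hx
      have h3 : x = 0 := by
        apply hΦ.nd
        funext j
        have h4 := hx (Φ j) (by rw [hJ]; exact Ideal.subset_span ⟨j, rfl⟩)
        rw [aeval_eq_eval] at h4
        exact h4
      rw [h3, aeval_X]
      rfl
    rw [vanishingIdeal_zeroLocus_eq_radical] at h2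
    exact h2
  choose k hk using h1
  refine ⟨∑ i, k i + D + 1, by omega, by omega, ?_⟩
  have h2 : ∀ i, ∃ c : Fin N → MvPolynomial (Fin N) ℂ,
      ∑ j, c j * Φ j = (X i : MvPolynomial (Fin N) ℂ) ^ (∑ i, k i + D + 1) := by
    intro i
    rw [← Ideal.mem_span_range_iff_exists_fun, ← hJ]
    have h3 : k i ≤ ∑ i, k i := Finset.single_le_sum (fun _ _ => Nat.zero_le _) (Finset.mem_univ i)
    have h4 : ∑ i, k i + D + 1 = (∑ i, k i + D + 1 - k i) + k i := by omega
    rw [h4, pow_add]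
    exact J.mul_mem_left _ (hk i)
  choose c hc using h2
  refine ⟨fun i j => homogeneousComponent (∑ i, k i + D + 1 - D) (c i j), ?_, ?_⟩
  · intro i j
    exact homogeneousComponent_isHomogeneous _ _
  · intro i
    have h3 : homogeneousComponent (∑ i, k i + D + 1 - D + D)
        ((X i : MvPolynomial (Fin N) ℂ) ^ (∑ i, k i + D + 1)) =
        (X i : MvPolynomial (Fin N) ℂ) ^ (∑ i, k i + D + 1) := by
      rw [Nat.sub_add_cancel (by omega)]
      exact homogeneousComponent_eq_self (isHomogeneous_X_pow i _)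
    rw [← h3, ← hc i, map_sum]
    exact Finset.sum_congr rfl fun j _ => homComp_mul _ _ (hΦ.hom j) _

/-- the ring `ℂ[x]` as an algebra over `ℂ[y]`, `y = Φ(x)` -/
def SX (_Φ : Fin N → MvPolynomial (Fin N) ℂ) : Type := MvPolynomial (Fin N) ℂ

noncomputable instance (Φ : Fin N → MvPolynomial (Fin N) ℂ) : CommRing (SX Φ) :=
  inferInstanceAs (CommRing (MvPolynomial (Fin N) ℂ))

instance (Φ : Fin N → MvPolynomial (Fin N) ℂ) : IsDomain (SX Φ) :=
  inferInstanceAs (IsDomain (MvPolynomial (Fin N) ℂ))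

noncomputable instance (Φ : Fin N → MvPolynomial (Fin N) ℂ) :
    Algebra (MvPolynomial (Fin N) ℂ) (SX Φ) :=
  RingHom.toAlgebra (R := MvPolynomial (Fin N) ℂ) (S := SX Φ)
    ((bind₁ Φ : MvPolynomial (Fin N) ℂ →ₐ[ℂ] MvPolynomial (Fin N) ℂ) :
      MvPolynomial (Fin N) ℂ →+* MvPolynomial (Fin N) ℂ)

/-- the identity -/
noncomputable def toS (Φ : Fin N → MvPolynomial (Fin N) ℂ) : MvPolynomial (Fin N) ℂ ≃+* SX Φ :=
  RingEquiv.refl (MvPolynomial (Fin N) ℂ)

theorem algMap (Φ : Fin N → MvPolynomial (Fin N) ℂ) (p : MvPolynomial (Fin N) ℂ) :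
    algebraMap (MvPolynomial (Fin N) ℂ) (SX Φ) p = toS Φ (bind₁ Φ p) := rfl

theorem smulDef (Φ : Fin N → MvPolynomial (Fin N) ℂ) (p q : MvPolynomial (Fin N) ℂ) :
    p • (toS Φ q) = toS Φ (bind₁ Φ p * q) := by
  rw [Algebra.smul_def, algMap, map_mul]

theorem finite_SX {D : ℕ} {Φ : Fin N → MvPolynomial (Fin N) ℂ} (hN : 0 < N) (hD : 1 ≤ D)
    (hΦ : IsH D Φ) : Module.Finite (MvPolynomial (Fin N) ℂ) (SX Φ) := by
  classical
  obtain ⟨e, heD, he1, c, hc, hX⟩ := exists_pow hΦ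
  obtain ⟨B, hB⟩ : ∃ B : ℕ, B = N * e := ⟨_, rfl⟩
  obtain ⟨T, hT⟩ : ∃ T : Set (SX Φ), T = (fun α : Fin N →₀ ℕ => toS Φ (monomial α (1 : ℂ))) ''
    {α | α.degree < B} := ⟨_, rfl⟩
  have hTf : T.Finite := by
    rw [hT]
    apply Set.Finite.image
    have h1 : {α : Fin N →₀ ℕ | α.degree < B} ⊆ {α | ∀ i, α i ≤ B} := by
      intro α hα i
      have h2 : α i ≤ α.degree := Finsupp.le_degree i α
      have h3 : α.degree < B := hα
      omega
    refine Set.Finite.subset ?_ h1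
    have h2 : {α : Fin N →₀ ℕ | ∀ i, α i ≤ B} =
        Set.Iic (Finsupp.equivFunOnFinite.symm fun _ => B) := by
      ext α
      rw [Set.mem_Iic, Finsupp.le_def]
      rfl
    rw [h2]
    exact Set.finite_Iic _
  obtain ⟨W, hW⟩ : ∃ W : Submodule (MvPolynomial (Fin N) ℂ) (SX Φ),
    W = Submodule.span (MvPolynomial (Fin N) ℂ) T := ⟨_, rfl⟩
  have key : ∀ n : ℕ, ∀ q : MvPolynomial (Fin N) ℂ, q.IsHomogeneous n → toS Φ q ∈ W := by
    intro n
    induction n using Nat.strong_induction_on with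
    | _ n ih =>
      intro q hq
      have hmon : ∀ (α : Fin N →₀ ℕ) (a : ℂ), α.degree = n → toS Φ (monomial α a) ∈ W := by
        intro α a hα
        by_cases hn : n < B
        · have h1 : toS Φ (monomial α a) =
              (C a : MvPolynomial (Fin N) ℂ) • toS Φ (monomial α (1 : ℂ)) := by
            rw [smulDef, bind₁_C_right, C_mul_monomial, mul_one]
          rw [h1]
          refine W.smul_mem _ ?_
          rw [hW]
          apply Submodule.subset_span
          rw [hT]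
          exact ⟨α, by change α.degree < B; rw [hα]; exact hn, rfl⟩
        · rw [not_lt] at hn
          obtain ⟨i, hi⟩ : ∃ i, e ≤ α i := by
            by_contra hno
            push Not at hno
            have h1 : α.degree = ∑ i, α i := Finsupp.degree_eq_sum α
            have h2 : ∑ i, α i ≤ ∑ _i : Fin N, (e - 1) :=
              Finset.sum_le_sum fun i _ => by have := hno i; omega
            rw [Finset.sum_const, Finset.card_univ, Fintype.card_fin, smul_eq_mul] at h2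
            have h3 : N * (e - 1) < N * e := Nat.mul_lt_mul_of_pos_left (by omega) hN
            omega
          have h1 : (monomial α a : MvPolynomial (Fin N) ℂ) =
              monomial (α - Finsupp.single i e) a * X i ^ e := by
            rw [X_pow_eq_monomial, monomial_mul, mul_one, tsub_add_cancel_of_le]
            rwa [Finsupp.single_le_iff]
          have h2 : toS Φ (monomial α a) = ∑ j, (X j : MvPolynomial (Fin N) ℂ) •
              toS Φ (monomial (α - Finsupp.single i e) a * c i j) := by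
            have h3 : ∀ j, (X j : MvPolynomial (Fin N) ℂ) •
              toS Φ (monomial (α - Finsupp.single i e) a * c i j) =
              toS Φ (monomial (α - Finsupp.single i e) a * (c i j * Φ j)) := by
              intro j
              rw [smulDef, bind₁_X_right]
              congr 1
              ring
            rw [Finset.sum_congr rfl fun j _ => h3 j, ← map_sum, h1, hX i, Finset.mul_sum]
          rw [h2]
          refine Submodule.sum_mem _ fun j _ => W.smul_mem _ ?_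
          have h4 : (α - Finsupp.single i e).degree = n - e := by
            have h5 : (α - Finsupp.single i e) + Finsupp.single i e = α :=
              tsub_add_cancel_of_le (by rwa [Finsupp.single_le_iff])
            have h6 := congrArg Finsupp.degree h5
            rw [map_add, Finsupp.degree_single, hα] at h6
            omega
          have hen : e ≤ n := by
            have h2 : α i ≤ α.degree := Finsupp.le_degree i α
            omega
          refine ih ((n - e) + (e - D)) (by omega) _ ?_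
          exact (isHomogeneous_monomial a h4).mul (hc i j)
      rw [← q.support_sum_monomial_coeff, map_sum]
      refine Submodule.sum_mem _ fun v hv => hmon v _ ?_
      have h1 := hq (mem_support_iff.mp hv)
      rw [Finsupp.degree_eq_weight_one]
      exact h1
  refine ⟨⟨hTf.toFinset, ?_⟩⟩
  rw [Set.Finite.coe_toFinset, ← hW, eq_top_iff]
  rintro q -
  obtain ⟨q', rfl⟩ := (toS Φ).surjective q
  rw [← sum_homogeneousComponent q', map_sum]
  exact Submodule.sum_mem W fun i _ => key i _ (homogeneousComponent_isHomogeneous i _)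

end Pool.Agent.H86.EQP.PCH

namespace Pool.Agent.H86.EQP.PCH

open MvPolynomial
open Pool.Agent.H92.EQ
open MeasureTheory

variable {N : ℕ}

theorem eval_bind (Φ : Fin N → MvPolynomial (Fin N) ℂ) (p : MvPolynomial (Fin N) ℂ)
    (x : Fin N → ℂ) : eval x (bind₁ Φ p) = eval (ev Φ x) p := by
  rw [← aeval_eq_eval, aeval_bind₁]
  rfl

theorem inj (hG3 : T_G3) {D : ℕ} {Φ : Fin N → MvPolynomial (Fin N) ℂ} (hD : 1 ≤ D)
    (hΦ : IsH D Φ) : Function.Injective (bind₁ Φ : MvPolynomial (Fin N) ℂ → _) := by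
  rw [injective_iff_map_eq_zero]
  intro p hp
  have hcont : Continuous (ev Φ) := by
    apply continuous_pi
    intro i
    exact (Φ i).continuous_eval
  have hU : IsOpen {z : Fin N → ℂ | eval z p ≠ 0} :=
    isOpen_ne_fun p.continuous_eval continuous_const
  have h1 := hG3 N D Φ hD hΦ
  have h2 := congrArg (fun μ : Measure (Fin N → ℂ) => μ {z : Fin N → ℂ | eval z p ≠ 0}) h1
  simp only [Measure.smul_apply, smul_eq_mul] at h2
  rw [Measure.map_apply hcont.measurable hU.measurableSet] at h2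
  have h3 : ev Φ ⁻¹' {z : Fin N → ℂ | eval z p ≠ 0} = ∅ := by
    ext x
    simp only [Set.mem_preimage, Set.mem_empty_iff_false, iff_false]
    intro hx
    apply hx
    rw [← eval_bind, hp, map_zero]
  rw [h3, measure_empty] at h2
  have h4 : volume {z : Fin N → ℂ | eval z p ≠ 0} = 0 := by
    rcases mul_eq_zero.mp h2.symm with h5 | h5
    · exfalso
      have h6 : (D : ENNReal) = 0 := by
        by_contra h7
        exact pow_ne_zero N h7 h5
      have h8 : D = 0 := by exact_mod_cast h6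
      omega
    · exact h5
  have h4' := (hU.measure_eq_zero_iff (volume : Measure (Fin N → ℂ))).mp h4
  apply MvPolynomial.funext
  intro x
  rw [map_zero]
  by_contra hx
  have h5 : x ∈ {z : Fin N → ℂ | eval z p ≠ 0} := hx
  rw [h4'] at h5
  exact h5

theorem coeff_scale (c : ℂ) (p : MvPolynomial (Fin N) ℂ) (α : Fin N →₀ ℕ) :
    coeff α (bind₁ (fun i => C c * X i : Fin N → MvPolynomial (Fin N) ℂ) p) =
      c ^ α.degree * coeff α p := by
  classical
  induction p using MvPolynomial.induction_on' with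
  | monomial β a =>
    have h1 : bind₁ (fun i => C c * X i : Fin N → MvPolynomial (Fin N) ℂ) (monomial β a) =
        monomial β (c ^ β.degree * a) := by
      rw [bind₁_monomial]
      simp only [mul_pow]
      rw [Finset.prod_mul_distrib, Finset.prod_pow_eq_pow_sum, monomial_eq, Finsupp.prod, C_mul,
        C_pow]
      change C a * (C c ^ β.degree * _) = _
      ring
    rw [h1, coeff_monomial, coeff_monomial]
    split_ifs with h
    · rw [h]
    · rw [mul_zero]
  | add p q hp hq =>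
    rw [map_add, coeff_add, coeff_add, hp, hq]
    ring

theorem scale_hom (c : ℂ) {h : MvPolynomial (Fin N) ℂ} {m : ℕ} (hh : h.IsHomogeneous m) :
    bind₁ (fun i => C c * X i : Fin N → MvPolynomial (Fin N) ℂ) h = C (c ^ m) * h := by
  ext α
  rw [coeff_scale, coeff_C_mul]
  by_cases h0 : coeff α h = 0
  · rw [h0, mul_zero, mul_zero]
  · have h1 := hh h0
    have h2 : α.degree = m := by
      rw [Finsupp.degree_eq_weight_one]
      exact h1
    rw [h2]

theorem exists_P (hG3 : T_G3) {D : ℕ} {Φ : Fin N → MvPolynomial (Fin N) ℂ}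
    {G : MvPolynomial (Fin N) ℂ} (hN : 0 < N) (hD : 1 ≤ D) (hΦ : IsH D Φ) (hG0 : G ≠ 0) :
    ∃ P : Polynomial (MvPolynomial (Fin N) ℂ), P.Monic ∧ 1 ≤ P.natDegree ∧
      (∃ j < P.natDegree, P.coeff j ≠ 0) ∧
      P.eval₂ ((bind₁ Φ : MvPolynomial (Fin N) ℂ →ₐ[ℂ] MvPolynomial (Fin N) ℂ) :
        MvPolynomial (Fin N) ℂ →+* MvPolynomial (Fin N) ℂ) G = 0 ∧
      (∀ Q : Polynomial (MvPolynomial (Fin N) ℂ),
        Q.eval₂ ((bind₁ Φ : MvPolynomial (Fin N) ℂ →ₐ[ℂ] MvPolynomial (Fin N) ℂ) :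
        MvPolynomial (Fin N) ℂ →+* MvPolynomial (Fin N) ℂ) G = 0 → P ∣ Q) ∧
      (∀ q : MvPolynomial (Fin N) ℂ, ∃ Q : Polynomial (MvPolynomial (Fin N) ℂ), Q.Monic ∧
        Q.eval₂ ((bind₁ Φ : MvPolynomial (Fin N) ℂ →ₐ[ℂ] MvPolynomial (Fin N) ℂ) :
        MvPolynomial (Fin N) ℂ →+* MvPolynomial (Fin N) ℂ) q = 0) := by
  classical
  have := finite_SX hN hD hΦ
  have hinj : Function.Injective (algebraMap (MvPolynomial (Fin N) ℂ) (SX Φ)) := by
    intro p q hpq
    rw [algMap, algMap] at hpq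
    exact inj hG3 hD hΦ ((toS Φ).injective hpq)
  have htf : Module.IsTorsionFree (MvPolynomial (Fin N) ℂ) (SX Φ) :=
    Module.isTorsionFree_iff_algebraMap_injective.mpr hinj
  have hconv : ∀ (Q : Polynomial (MvPolynomial (Fin N) ℂ)) (q : MvPolynomial (Fin N) ℂ),
      Polynomial.aeval (toS Φ q) Q = toS Φ (Q.eval₂ ((bind₁ Φ : MvPolynomial (Fin N) ℂ →ₐ[ℂ]
        MvPolynomial (Fin N) ℂ) : MvPolynomial (Fin N) ℂ →+* MvPolynomial (Fin N) ℂ) q) := by
    intro Q q
    have h1 := Polynomial.hom_eval₂ Q ((bind₁ Φ : MvPolynomial (Fin N) ℂ →ₐ[ℂ]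
        MvPolynomial (Fin N) ℂ) : MvPolynomial (Fin N) ℂ →+* MvPolynomial (Fin N) ℂ)
        (toS Φ : MvPolynomial (Fin N) ℂ →+* SX Φ) q
    rw [Polynomial.aeval_def]
    exact h1.symm
  have hint : ∀ q : MvPolynomial (Fin N) ℂ, IsIntegral (MvPolynomial (Fin N) ℂ) (toS Φ q) :=
    fun q => IsIntegral.of_finite _ _
  have hP1 := minpoly.monic (hint G)
  have hP2 := minpoly.aeval (MvPolynomial (Fin N) ℂ) (toS Φ G)
  rw [hconv] at hP2
  have hP3 : Polynomial.eval₂ ((bind₁ Φ : MvPolynomial (Fin N) ℂ →ₐ[ℂ] MvPolynomial (Fin N) ℂ) :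
        MvPolynomial (Fin N) ℂ →+* MvPolynomial (Fin N) ℂ) G
        (minpoly (MvPolynomial (Fin N) ℂ) (toS Φ G)) = 0 :=
    (map_eq_zero_iff _ (toS Φ).injective).mp hP2
  have hP4 : 1 ≤ (minpoly (MvPolynomial (Fin N) ℂ) (toS Φ G)).natDegree := by
    by_contra h
    have h1 : (minpoly (MvPolynomial (Fin N) ℂ) (toS Φ G)).natDegree = 0 := by omega
    have h2 := Polynomial.eq_one_of_monic_natDegree_zero hP1 h1
    rw [h2, Polynomial.eval₂_one] at hP3
    exact one_ne_zero hP3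
  refine ⟨minpoly (MvPolynomial (Fin N) ℂ) (toS Φ G), hP1, hP4, ?_, hP3, ?_, ?_⟩
  · by_contra hno
    push Not at hno
    have h1 : minpoly (MvPolynomial (Fin N) ℂ) (toS Φ G) =
        Polynomial.X ^ (minpoly (MvPolynomial (Fin N) ℂ) (toS Φ G)).natDegree := by
      ext1 j
      rw [Polynomial.coeff_X_pow]
      rcases lt_trichotomy j (minpoly (MvPolynomial (Fin N) ℂ) (toS Φ G)).natDegree with h | h | h
      · rw [hno j h, if_neg h.ne]
      · rw [h, if_pos rfl]
        exact hP1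
      · rw [if_neg h.ne', Polynomial.coeff_eq_zero_of_natDegree_lt h]
    rw [h1, Polynomial.eval₂_X_pow] at hP3
    exact pow_ne_zero _ hG0 hP3
  · intro Q hQ
    apply minpoly.isIntegrallyClosed_dvd (hint G)
    rw [hconv, hQ, map_zero]
  · intro q
    obtain ⟨Q, hQ1, hQ2⟩ := hint q
    refine ⟨Q, hQ1, ?_⟩
    have h1 := hconv Q q
    rw [Polynomial.aeval_def, hQ2] at h1
    exact (map_eq_zero_iff _ (toS Φ).injective).mp h1.symm

end Pool.Agent.H86.EQP.PCH

namespace Pool.Agent.H86.EQP.PCH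

open MvPolynomial
open Pool.Agent.H92.EQ

variable {N : ℕ}

/-- `bind₁ Φ` as a ring homomorphism -/
noncomputable abbrev bh (Φ : Fin N → MvPolynomial (Fin N) ℂ) :
    MvPolynomial (Fin N) ℂ →+* MvPolynomial (Fin N) ℂ :=
  ((bind₁ Φ : MvPolynomial (Fin N) ℂ →ₐ[ℂ] MvPolynomial (Fin N) ℂ) :
        MvPolynomial (Fin N) ℂ →+* MvPolynomial (Fin N) ℂ)

theorem coeff_hom {D m : ℕ} {Φ : Fin N → MvPolynomial (Fin N) ℂ}
    {G : MvPolynomial (Fin N) ℂ} (hΦ : IsH D Φ) (hG : G.IsHomogeneous m)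
    {P : Polynomial (MvPolynomial (Fin N) ℂ)} (hP : P.Monic) (hPG : P.eval₂ (bh Φ) G = 0)
    (hdvd : ∀ Q : Polynomial (MvPolynomial (Fin N) ℂ), Q.eval₂ (bh Φ) G = 0 → P ∣ Q) (j : ℕ)
    (α : Fin N →₀ ℕ) (hα : coeff α (P.coeff j) ≠ 0) :
    D * α.degree = m * (P.natDegree - j) := by
  obtain ⟨s, hs⟩ : ∃ s : Fin N → MvPolynomial (Fin N) ℂ, s = fun i => C ((2 : ℂ) ^ D) * X i :=
    ⟨_, rfl⟩
  obtain ⟨t, ht⟩ : ∃ t : Fin N → MvPolynomial (Fin N) ℂ, t = fun i => C (2 : ℂ) * X i :=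
    ⟨_, rfl⟩
  have hcomp : (bh t).comp (bh Φ) = (bh Φ).comp (bh s) := by
    have h1 : (bind₁ t).comp (bind₁ Φ) = (bind₁ Φ).comp (bind₁ s) := by
      apply MvPolynomial.algHom_ext
      intro i
      rw [AlgHom.comp_apply, AlgHom.comp_apply, bind₁_X_right, bind₁_X_right, ht,
        scale_hom 2 (hΦ.hom i), hs, map_mul, bind₁_C_right, bind₁_X_right]
    apply RingHom.ext
    intro q
    exact congrArg (fun f : MvPolynomial (Fin N) ℂ →ₐ[ℂ] MvPolynomial (Fin N) ℂ => f q) h1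
  have h1 : Polynomial.eval₂ (bh Φ) (C ((2 : ℂ) ^ m) * G) (P.map (bh s)) = 0 := by
    have h2 := Polynomial.hom_eval₂ P (bh Φ) (bh t) G
    rw [hPG, map_zero, hcomp] at h2
    rw [Polynomial.eval₂_map]
    have h3 : (bh t) G = C ((2 : ℂ) ^ m) * G := by
      change bind₁ t G = _
      rw [ht]
      exact scale_hom 2 hG
    rw [h3] at h2
    exact h2.symm
  have h2 := Polynomial.scaleRoots_eval₂_eq_zero (bh Φ) (s := C (((2 : ℂ) ^ m)⁻¹)) h1
  have h3 : (bh Φ) (C (((2 : ℂ) ^ m)⁻¹)) * (C ((2 : ℂ) ^ m) * G) = G := by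
    change bind₁ Φ (C _) * _ = _
    rw [bind₁_C_right, ← mul_assoc, ← C_mul, inv_mul_cancel₀ (pow_ne_zero _ two_ne_zero), C_1,
      one_mul]
  rw [h3] at h2
  have h4 := hdvd _ h2
  have h5 : (Polynomial.scaleRoots (P.map (bh s)) (C (((2 : ℂ) ^ m)⁻¹))).Monic := by
    rw [Polynomial.monic_scaleRoots_iff]
    exact hP.map _
  have h6 : (P.map (bh s)).natDegree = P.natDegree := hP.natDegree_map _
  have h7 := Polynomial.eq_of_monic_of_dvd_of_natDegree_le hP h5 h4
    (by rw [Polynomial.natDegree_scaleRoots, h6])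
  have h8 := congrArg (fun Q : Polynomial (MvPolynomial (Fin N) ℂ) => coeff α (Q.coeff j)) h7
  simp only [Polynomial.coeff_scaleRoots, Polynomial.coeff_map, h6] at h8
  have h9 : (bh s) (P.coeff j) * C (((2 : ℂ) ^ m)⁻¹) ^ (P.natDegree - j) =
      C ((((2 : ℂ) ^ m)⁻¹) ^ (P.natDegree - j)) * bind₁ s (P.coeff j) := by
    rw [C_pow, mul_comm]
    rfl
  rw [h9, coeff_C_mul, hs, coeff_scale] at h8
  have h10 : (((2 : ℂ) ^ m)⁻¹) ^ (P.natDegree - j) * ((2 : ℂ) ^ D) ^ α.degree = 1 := by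
    apply mul_right_cancel₀ hα
    rw [mul_assoc, h8, one_mul]
  rw [inv_pow, inv_mul_eq_one₀ (pow_ne_zero _ (pow_ne_zero _ two_ne_zero)), ← pow_mul,
    ← pow_mul] at h10
  have h11 : (2 : ℕ) ^ (m * (P.natDegree - j)) = 2 ^ (D * α.degree) := by exact_mod_cast h10
  exact (Nat.pow_right_injective le_rfl h11).symm

theorem lift_root {Φ : Fin N → MvPolynomial (Fin N) ℂ} {G : MvPolynomial (Fin N) ℂ}
    {P : Polynomial (MvPolynomial (Fin N) ℂ)}
    (hdvd : ∀ Q : Polynomial (MvPolynomial (Fin N) ℂ), Q.eval₂ (bh Φ) G = 0 → P ∣ Q)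
    (hint : ∀ q : MvPolynomial (Fin N) ℂ, ∃ Q : Polynomial (MvPolynomial (Fin N) ℂ), Q.Monic ∧
        Q.eval₂ (bh Φ) q = 0) (z : Fin N → ℂ) (t : ℂ)
    (ht : P.eval₂ (eval z : MvPolynomial (Fin N) ℂ →+* ℂ) t = 0) :
    ∃ x, ev Φ x = z ∧ eval x G = t := by
  classical
  let ρ : Polynomial (MvPolynomial (Fin N) ℂ) →+* MvPolynomial (Fin N) ℂ :=
    Polynomial.eval₂RingHom (bh Φ) G
  have hρint : ρ.IsIntegral := by
    intro q
    obtain ⟨Q, hQ, hQ'⟩ := hint q
    refine ⟨Q.map (Polynomial.C : MvPolynomial (Fin N) ℂ →+* _), hQ.map _, ?_⟩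
    rw [Polynomial.eval₂_map]
    have h1 : ρ.comp (Polynomial.C : MvPolynomial (Fin N) ℂ →+* _) = bh Φ := by
      apply RingHom.ext
      intro p
      exact Polynomial.eval₂_C _ _
    rw [h1, hQ']
  let _ : Algebra (Polynomial (MvPolynomial (Fin N) ℂ)) (MvPolynomial (Fin N) ℂ) := ρ.toAlgebra
  have hint' : Algebra.IsIntegral (Polynomial (MvPolynomial (Fin N) ℂ))
    (MvPolynomial (Fin N) ℂ) := ⟨hρint⟩
  let φ : Polynomial (MvPolynomial (Fin N) ℂ) →+* ℂ :=
    Polynomial.eval₂RingHom (eval z : MvPolynomial (Fin N) ℂ →+* ℂ) t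
  let m : Ideal (Polynomial (MvPolynomial (Fin N) ℂ)) := RingHom.ker φ
  have hm : m.IsMaximal := RingHom.ker_isMaximal_of_surjective _ (fun a => ⟨Polynomial.C (C a), by
    change Polynomial.eval₂ _ _ _ = a
    rw [Polynomial.eval₂_C, eval_C]⟩)
  have hkm : RingHom.ker (algebraMap (Polynomial (MvPolynomial (Fin N) ℂ))
      (MvPolynomial (Fin N) ℂ)) ≤ m := by
    intro q hq
    have h1 : q.eval₂ (bh Φ) G = 0 := hq
    obtain ⟨e, he⟩ := hdvd q h1
    change q.eval₂ (eval z : MvPolynomial (Fin N) ℂ →+* ℂ) t = 0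
    rw [he, Polynomial.eval₂_mul, ht, zero_mul]
  obtain ⟨M, hM, hMm⟩ := Ideal.exists_ideal_over_maximal_of_isIntegral m hkm
  obtain ⟨x, hx⟩ := isMaximal_iff_eq_vanishingIdeal_singleton.1 hM
  have hmem : ∀ q : Polynomial (MvPolynomial (Fin N) ℂ),
      q.eval₂ (eval z : MvPolynomial (Fin N) ℂ →+* ℂ) t = 0 → eval x (q.eval₂ (bh Φ) G) = 0 := by
    intro q hq
    have h1 : q ∈ m := hq
    rw [← hMm] at h1
    have h2 : q.eval₂ (bh Φ) G ∈ M := h1
    rw [hx, mem_vanishingIdeal_singleton_iff, aeval_eq_eval] at h2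
    exact h2
  refine ⟨x, ?_, ?_⟩
  · funext i
    have h1 := hmem (Polynomial.C (X i - C (z i))) (by
      rw [Polynomial.eval₂_C, map_sub, eval_X, eval_C, sub_self])
    rw [Polynomial.eval₂_C] at h1
    have h2 : (bh Φ) (X i - C (z i)) = Φ i - C (z i) := by
      change bind₁ Φ _ = _
      rw [map_sub, bind₁_X_right, bind₁_C_right]
    rw [h2, map_sub, eval_C] at h1
    exact sub_eq_zero.mp h1
  · have h1 := hmem (Polynomial.X - Polynomial.C (C t)) (by
      rw [Polynomial.eval₂_sub, Polynomial.eval₂_X, Polynomial.eval₂_C, eval_C, sub_self])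
    rw [Polynomial.eval₂_sub, Polynomial.eval₂_X, Polynomial.eval₂_C, map_sub] at h1
    have h2 : (bh Φ) (C t) = C t := by
      change bind₁ Φ _ = _
      rw [bind₁_C_right]
    rw [h2, eval_C] at h1
    exact sub_eq_zero.mp h1

end Pool.Agent.H86.EQP.PCH

namespace Pool.Agent.H86.EQP.PCH

open MvPolynomial
open Pool.Agent.H92.EQ

variable {N : ℕ}

theorem nrm_nonneg (z : Fin N → ℂ) : 0 ≤ nrm z := Real.sqrt_nonneg _

theorem norm_le_nrm (z : Fin N → ℂ) (i : Fin N) : ‖z i‖ ≤ nrm z := by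
  unfold nrm nsq
  rw [← Real.sqrt_sq (norm_nonneg (z i))]
  apply Real.sqrt_le_sqrt
  exact Finset.single_le_sum (f := fun i => ‖z i‖ ^ 2) (fun _ _ => sq_nonneg _)
    (Finset.mem_univ i)

theorem nrm_pos {z : Fin N → ℂ} (hz : z ≠ 0) : 0 < nrm z := by
  obtain ⟨i, hi⟩ := Function.ne_iff.mp hz
  exact (norm_pos_iff.mpr hi).trans_le (norm_le_nrm z i)

theorem exists_nrm_le {z : Fin N → ℂ} (hz : z ≠ 0) : ∃ i, nrm z ≤ N * ‖z i‖ := by
  obtain ⟨i0, hi0⟩ := Function.ne_iff.mp hz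
  obtain ⟨i, -, hi⟩ := Finset.exists_max_image (Finset.univ : Finset (Fin N)) (fun i => ‖z i‖)
    ⟨i0, Finset.mem_univ _⟩
  refine ⟨i, ?_⟩
  have hN : (1 : ℝ) ≤ N := by
    have := i.pos
    exact_mod_cast this
  have h1 : nsq z ≤ (N * ‖z i‖) ^ 2 := by
    unfold nsq
    calc ∑ j, ‖z j‖ ^ 2 ≤ ∑ _j : Fin N, ‖z i‖ ^ 2 :=
          Finset.sum_le_sum fun j _ => pow_le_pow_left₀ (norm_nonneg _) (hi j (Finset.mem_univ j)) 2
      _ = N * ‖z i‖ ^ 2 := by
          rw [Finset.sum_const, Finset.card_univ, Fintype.card_fin, nsmul_eq_mul]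
      _ ≤ (N * ‖z i‖) ^ 2 := by
          rw [mul_pow]
          refine mul_le_mul_of_nonneg_right ?_ (sq_nonneg _)
          nlinarith
  unfold nrm
  rw [← Real.sqrt_sq (by positivity : (0 : ℝ) ≤ N * ‖z i‖)]
  exact Real.sqrt_le_sqrt h1

theorem hom_le {h : MvPolynomial (Fin N) ℂ} {m : ℕ} (hh : h.IsHomogeneous m) :
    ∃ K : ℝ, 1 ≤ K ∧ ∀ x : Fin N → ℂ, ‖eval x h‖ ≤ K * nrm x ^ m := by
  refine ⟨∑ α ∈ h.support, ‖coeff α h‖ + 1, ?_, fun x => ?_⟩
  · have : 0 ≤ ∑ α ∈ h.support, ‖coeff α h‖ := Finset.sum_nonneg fun _ _ => norm_nonneg _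
    linarith
  · rw [eval_eq']
    refine (norm_sum_le _ _).trans ?_
    have h1 : ∀ α ∈ h.support, ‖coeff α h * ∏ i, x i ^ α i‖ ≤ ‖coeff α h‖ * nrm x ^ m := by
      intro α hα
      rw [norm_mul, norm_prod]
      refine mul_le_mul_of_nonneg_left ?_ (norm_nonneg _)
      have h2 : ∑ i, α i = m := by
        have h3 := hh (mem_support_iff.mp hα)
        have h4 : α.degree = m := by
          rw [Finsupp.degree_eq_weight_one]
          exact h3
        rw [← h4, Finsupp.degree_eq_sum]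
      calc ∏ i, ‖x i ^ α i‖ ≤ ∏ i, nrm x ^ α i := by
            refine Finset.prod_le_prod (fun i _ => norm_nonneg _) fun i _ => ?_
            rw [norm_pow]
            exact pow_le_pow_left₀ (norm_nonneg _) (norm_le_nrm x i) _
        _ = nrm x ^ m := by
            rw [Finset.prod_pow_eq_pow_sum, h2]
    refine (Finset.sum_le_sum h1).trans ?_
    rw [← Finset.sum_mul]
    refine mul_le_mul_of_nonneg_right (by linarith) (pow_nonneg (nrm_nonneg x) _)

theorem low {D : ℕ} {Φ : Fin N → MvPolynomial (Fin N) ℂ} (hΦ : IsH D Φ) :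
    ∃ c : ℝ, 0 < c ∧ ∀ x : Fin N → ℂ, x ≠ 0 → c * nrm x ^ D ≤ nrm (ev Φ x) := by
  obtain ⟨e, heD, he1, c, hc, hX⟩ := exists_pow hΦ
  have h1 : ∀ i j, ∃ K : ℝ, 1 ≤ K ∧ ∀ x : Fin N → ℂ, ‖eval x (c i j)‖ ≤ K * nrm x ^ (e - D) :=
    fun i j => hom_le (hc i j)
  choose K hK1 hK using h1
  obtain ⟨L, hL⟩ : ∃ L : ℝ, L = ∑ i, ∑ j, K i j + 1 := ⟨_, rfl⟩
  have hL0 : 0 < L := by
    rw [hL]
    have : 0 ≤ ∑ i, ∑ j, K i j :=
      Finset.sum_nonneg fun i _ => Finset.sum_nonneg fun j _ => zero_le_one.trans (hK1 i j)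
    linarith
  have h2 : ∀ i (x : Fin N → ℂ), ‖x i‖ ^ e ≤ L * nrm x ^ (e - D) * nrm (ev Φ x) := by
    intro i x
    have h3 := congrArg (eval x) (hX i)
    rw [map_pow, eval_X, map_sum] at h3
    rw [← norm_pow, h3]
    refine (norm_sum_le _ _).trans ?_
    have h4 : ∀ j ∈ (Finset.univ : Finset (Fin N)), ‖eval x (c i j * Φ j)‖ ≤
        K i j * (nrm x ^ (e - D) * nrm (ev Φ x)) := by
      intro j _
      rw [map_mul, norm_mul, ← mul_assoc]
      refine mul_le_mul (hK i j x) (norm_le_nrm (ev Φ x) j) (norm_nonneg _) ?_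
      exact mul_nonneg (zero_le_one.trans (hK1 i j)) (pow_nonneg (nrm_nonneg x) _)
    refine (Finset.sum_le_sum h4).trans ?_
    rw [← Finset.sum_mul, mul_assoc]
    refine mul_le_mul_of_nonneg_right ?_
      (mul_nonneg (pow_nonneg (nrm_nonneg x) _) (nrm_nonneg _))
    rw [hL]
    have h5 : ∑ j, K i j ≤ ∑ i, ∑ j, K i j :=
      Finset.single_le_sum (f := fun i => ∑ j, K i j)
        (fun i _ => Finset.sum_nonneg fun j _ => zero_le_one.trans (hK1 i j)) (Finset.mem_univ i)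
    linarith
  refine ⟨((N : ℝ) ^ e * L + 1)⁻¹, by positivity, fun x hx => ?_⟩
  obtain ⟨i, hi⟩ := exists_nrm_le hx
  have hxp := nrm_pos hx
  have h3 : nrm x ^ e ≤ (N : ℝ) ^ e * (L * nrm x ^ (e - D) * nrm (ev Φ x)) := by
    calc nrm x ^ e ≤ (N * ‖x i‖) ^ e := pow_le_pow_left₀ hxp.le hi e
      _ = (N : ℝ) ^ e * ‖x i‖ ^ e := mul_pow _ _ _
      _ ≤ _ := mul_le_mul_of_nonneg_left (h2 i x) (by positivity)
  have h4 : nrm x ^ e = nrm x ^ (e - D) * nrm x ^ D := by
    rw [← pow_add, Nat.sub_add_cancel heD]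
  have h5 : nrm x ^ (e - D) * nrm x ^ D ≤
      nrm x ^ (e - D) * (((N : ℝ) ^ e * L + 1) * nrm (ev Φ x)) := by
    rw [← h4]
    refine h3.trans ?_
    have h6 : 0 ≤ nrm x ^ (e - D) * nrm (ev Φ x) :=
      mul_nonneg (pow_nonneg hxp.le _) (nrm_nonneg _)
    nlinarith
  have h6 := le_of_mul_le_mul_left h5 (pow_pos hxp _)
  rw [inv_mul_le_iff₀ (by positivity)]
  exact h6

end Pool.Agent.H86.EQP.PCH

namespace Pool.Agent.H86.EQP

open MvPolynomial
open Pool.Agent.H92.EQ

theorem pf_PCH (hG3 : T_G3) : T_PCH := by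
  classical
  intro N D m Φ G hN hD hm hΦ hG hG0
  obtain ⟨P, hP, hn1, ⟨j0, hj0, hj0'⟩, hPG, hdvd, hint⟩ := PCH.exists_P hG3 hN hD hΦ hG0
  have hhom := PCH.coeff_hom hΦ hG hP hPG hdvd
  have hlift := PCH.lift_root hdvd hint
  obtain ⟨K, hK1, hK⟩ := PCH.hom_le hG
  obtain ⟨c, hc0, hc⟩ := PCH.low hΦ
  obtain ⟨n, hn⟩ : ∃ n : ℕ, n = P.natDegree := ⟨_, rfl⟩
  rw [← hn] at hn1 hj0
  simp only [← hn] at hhom
  have hcoef : ∀ (z : Fin N → ℂ) (B : ℝ),
      (∀ t ∈ (P.map (eval z : MvPolynomial (Fin N) ℂ →+* ℂ)).roots, ‖t‖ ≤ B) →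
      ∀ j : ℕ, ‖eval z (P.coeff j)‖ ≤ B ^ (n - j) * n.choose j := by
    intro z B hB j
    have h1 := Polynomial.coeff_le_of_roots_le (f := (eval z : MvPolynomial (Fin N) ℂ →+* ℂ)) j hP
      (IsAlgClosed.splits _) hB
    rw [Polynomial.coeff_map, ← hn] at h1
    exact h1
  have hroot : ∀ (z : Fin N → ℂ) (t : ℂ),
      t ∈ (P.map (eval z : MvPolynomial (Fin N) ℂ →+* ℂ)).roots ↔
      P.eval₂ (eval z : MvPolynomial (Fin N) ℂ →+* ℂ) t = 0 := by
    intro z t
    rw [Polynomial.mem_roots (hP.map _).ne_zero, Polynomial.IsRoot.def, Polynomial.eval_map]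
  have hfib : ∀ (z x : Fin N → ℂ), ev Φ x = z →
      P.eval₂ (eval z : MvPolynomial (Fin N) ℂ →+* ℂ) (eval x G) = 0 := by
    intro z x hx
    have h1 := Polynomial.hom_eval₂ P (PCH.bh Φ) (eval x : MvPolynomial (Fin N) ℂ →+* ℂ) G
    rw [hPG, map_zero] at h1
    have h2 : (eval x : MvPolynomial (Fin N) ℂ →+* ℂ).comp (PCH.bh Φ) = eval z := by
      apply RingHom.ext
      intro q
      change eval x (bind₁ Φ q) = eval z q
      rw [PCH.eval_bind, hx]
    rw [h2] at h1
    exact h1.symm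
  obtain ⟨C, hC⟩ : ∃ C : ℝ, C = ∑ j : Fin n, (n.choose j : ℝ) * (c⁻¹) ^ (m * (n - j) / D) * K ^ n
    + 1 := ⟨_, rfl⟩
  have hterm : ∀ j : Fin n, 0 ≤ (n.choose j : ℝ) * (c⁻¹) ^ (m * (n - j) / D) * K ^ n := by
    intro j
    positivity
  have hC0 : 0 < C := by
    rw [hC]
    have := Finset.sum_nonneg fun j (_ : j ∈ (Finset.univ : Finset (Fin n))) => hterm j
    linarith
  refine ⟨n, fun j => P.coeff j, fun j => m * (n - j) / D, C, hC0, ?_, ⟨⟨j0, hj0⟩, hj0'⟩, ?_, ?_⟩
  · intro j α hα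
    have h1 := hhom j α hα
    have h2 : α.degree = m * (n - j) / D := (Nat.div_eq_of_eq_mul_right (by omega) h1.symm).symm
    change _ = m * (n - j) / D
    rw [← h2, Finsupp.degree_eq_weight_one]
    rfl
  · intro z hz
    constructor
    · intro h x hx
      have h1 : P.map (eval z : MvPolynomial (Fin N) ℂ →+* ℂ) = Polynomial.X ^ n := by
        ext j
        rw [Polynomial.coeff_map, Polynomial.coeff_X_pow]
        rcases lt_trichotomy j n with h2 | h2 | h2
        · rw [if_neg h2.ne]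
          exact h ⟨j, h2⟩
        · rw [if_pos h2, h2, hn, hP.coeff_natDegree, map_one]
        · rw [if_neg h2.ne', Polynomial.coeff_eq_zero_of_natDegree_lt (by rw [← hn]; exact h2),
            map_zero]
      have h2 := hfib z x hx
      rw [← Polynomial.eval_map, h1, Polynomial.eval_pow, Polynomial.eval_X] at h2
      exact pow_eq_zero_iff (by omega) |>.mp h2
    · intro h j
      have h1 := hcoef z 0 (by
        intro t ht
        obtain ⟨x, hx, hxt⟩ := hlift z t ((hroot z t).mp ht)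
        rw [← hxt, h x hx, norm_zero]) j
      rw [zero_pow (by have := j.2; omega), zero_mul] at h1
      exact norm_le_zero_iff.mp h1
  · intro z hz
    have hne : (P.map (eval z : MvPolynomial (Fin N) ℂ →+* ℂ)).roots.toFinset.Nonempty := by
      have h1 : (P.map (eval z : MvPolynomial (Fin N) ℂ →+* ℂ)).degree ≠ 0 := by
        rw [Polynomial.degree_eq_natDegree (hP.map _).ne_zero, hP.natDegree_map, ← hn]
        exact_mod_cast (by omega : n ≠ 0)
      obtain ⟨t, ht⟩ := IsAlgClosed.exists_root _ h1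
      exact ⟨t, by
        rw [Multiset.mem_toFinset, Polynomial.mem_roots (hP.map _).ne_zero]
        exact ht⟩
    obtain ⟨t, ht, hmax⟩ := Finset.exists_max_image _ (fun t : ℂ => ‖t‖) hne
    rw [Multiset.mem_toFinset] at ht
    obtain ⟨x, hx, hxt⟩ := hlift z t ((hroot z t).mp ht)
    refine ⟨x, hx, fun j => ?_⟩
    have hx0 : x ≠ 0 := by
      rintro rfl
      apply hz
      rw [← hx]
      funext i
      have h1 : eval (0 : Fin N → ℂ) (Φ i) = 0 := by
        obtain ⟨K', -, hK'⟩ := PCH.hom_le (hΦ.hom i)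
        have h2 := hK' 0
        have h3 : nrm (0 : Fin N → ℂ) = 0 := by
          unfold nrm nsq
          simp
        rw [h3, zero_pow (by omega), mul_zero] at h2
        exact norm_le_zero_iff.mp h2
      exact h1
    have hxp := PCH.nrm_pos hx0
    have hzp := PCH.nrm_pos hz
    have h1 := hcoef z ‖t‖ (fun s hs => hmax s (Multiset.mem_toFinset.mpr hs)) j
    have hnv : nv G m x = ‖t‖ / nrm x ^ m := by
      unfold nv
      rw [hxt]
    have hnv0 : 0 ≤ nv G m x := by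
      rw [hnv]
      positivity
    have hnvK : nv G m x ≤ K := by
      unfold nv
      rw [div_le_iff₀ (pow_pos hxp _)]
      exact hK x
    by_cases hj : P.coeff j = 0
    · change ‖eval z (P.coeff j)‖ / nrm z ^ (m * (n - j) / D) ≤ _
      rw [hj, map_zero, norm_zero, zero_div]
      exact mul_nonneg hC0.le hnv0
    · obtain ⟨α, hα⟩ := ne_zero_iff.mp hj
      have h2 := hhom j α hα
      have h3 : α.degree = m * (n - j) / D := (Nat.div_eq_of_eq_mul_right (by omega) h2.symm).symm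
      rw [h3] at h2
      obtain ⟨ε, hε⟩ : ∃ ε : ℕ, ε = m * (n - j) / D := ⟨_, rfl⟩
      rw [← hε] at h2
      change ‖eval z (P.coeff j)‖ / nrm z ^ (m * (n - j) / D) ≤ _
      rw [← hε]
      have h4 : c ^ ε * (nrm x ^ m) ^ (n - j) ≤ nrm z ^ ε := by
        rw [← pow_mul, ← h2, pow_mul, ← mul_pow, ← hx]
        exact pow_le_pow_left₀ (by positivity) (hc x hx0) ε
      have h5 : ‖eval z (P.coeff j)‖ / nrm z ^ ε ≤
          (n.choose j : ℝ) * (c⁻¹) ^ ε * (nv G m x) ^ (n - j) := by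
        rw [div_le_iff₀ (pow_pos hzp _)]
        calc ‖eval z (P.coeff j)‖ ≤ ‖t‖ ^ (n - j) * n.choose j := h1
          _ = (n.choose j : ℝ) * (c⁻¹) ^ ε * (nv G m x) ^ (n - j) *
              (c ^ ε * (nrm x ^ m) ^ (n - j)) := by
              rw [hnv, div_pow, inv_pow]
              field_simp
          _ ≤ _ := mul_le_mul_of_nonneg_left h4 (by positivity)
      refine h5.trans ?_
      have h6 : (nv G m x) ^ (n - j) ≤ K ^ n * nv G m x := by
        have h7 : n - j = (n - j - 1) + 1 := by have := j.2; omega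
        rw [h7, pow_succ]
        refine mul_le_mul_of_nonneg_right ?_ hnv0
        calc nv G m x ^ (n - j - 1) ≤ K ^ (n - j - 1) := pow_le_pow_left₀ hnv0 hnvK _
          _ ≤ K ^ n := pow_le_pow_right₀ hK1 (by omega)
      have h7 : (n.choose j : ℝ) * (c⁻¹) ^ ε * K ^ n ≤ C := by
        rw [hC, hε]
        have h8 := Finset.single_le_sum (f := fun j : Fin n =>
          (n.choose j : ℝ) * (c⁻¹) ^ (m * (n - j) / D) * K ^ n) (fun j _ => hterm j)
          (Finset.mem_univ j)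
        linarith
      calc (n.choose j : ℝ) * (c⁻¹) ^ ε * (nv G m x) ^ (n - j)
          ≤ (n.choose j : ℝ) * (c⁻¹) ^ ε * (K ^ n * nv G m x) :=
            mul_le_mul_of_nonneg_left h6 (by positivity)
        _ = (n.choose j : ℝ) * (c⁻¹) ^ ε * K ^ n * nv G m x := by ring
        _ ≤ C * nv G m x := mul_le_mul_of_nonneg_right h7 hnv0

end Pool.Agent.H86.EQP
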